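import Mathlib

/-!
Project FD (helper955): MP_0880e2_an, Fourier decomposition properties on the circle and on the line are equivalent.
Definitions and the statements of the pieces; proofs in NOTES.md.
-/

set_option autoImplicit false

namespace Pool.Agent.R955.FD

open MeasureTheory Set Filter Topology
open scoped ENNReal FourierTransform

universe u

/-- A partition of a linear order into countably many intervals, listed as a sequence in which the empty set is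
allowed. -/
def IsIntPart {α : Type} [Preorder α] (J : ℕ → Set α) : Prop :=
  (∀ i, (J i).OrdConnected) ∧ (∀ i j, i ≠ j → Disjoint (J i) (J j)) ∧ ∀ x, ∃ i, x ∈ J i

/-- The `ℓ^q` norm of a sequence in `[0, ∞]`, the supremum if `q = ∞`. -/
noncomputable def lq (q : ℝ≥0∞) (a : ℕ → ℝ≥0∞) : ℝ≥0∞ :=
  if q = ∞ then ⨆ i, a i else (∑' i, a i ^ q.toReal) ^ (1 / q.toReal)

/-- The character `exp (2 π i ξ t)`. -/
noncomputable def ch (ξ t : ℝ) : ℂ := Complex.exp (((2 * Real.pi * ξ * t : ℝ) : ℂ) * Complex.I)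

section
variable {X : Type u} [NormedAddCommGroup X] [NormedSpace ℂ X]

/-- The trigonometric polynomial with coefficients `c`. -/
noncomputable def trig (c : ℤ →₀ X) (t : ℝ) : X := c.sum fun n x => ch (n : ℝ) t • x

open Classical in
/-- `D_I f` for the trigonometric polynomial `f` with coefficients `c`. -/
noncomputable def DT (I : Set ℤ) (c : ℤ →₀ X) : ℝ → X := trig (c.filter fun n => n ∈ I)

/-- The norm of `L^p(𝕋; X)` for functions of period one. -/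
noncomputable def nT (p : ℝ≥0∞) (f : ℝ → X) : ℝ≥0∞ := eLpNorm f p (volume.restrict (Ioc (0 : ℝ) 1))

/-- The norm of `L^p(ℝ; X)`. -/
noncomputable def nR (p : ℝ≥0∞) (f : ℝ → X) : ℝ≥0∞ := eLpNorm f p volume

/-- Finite sums `∑ φ_j x_j`, `φ_j` Schwartz functions whose Fourier transforms have compact support. -/
def IsSc (f : ℝ → X) : Prop := ∃ (m : ℕ) (φ : Fin m → SchwartzMap ℝ ℂ) (x : Fin m → X),
  (∀ j, HasCompactSupport (𝓕 (fun t => φ j t))) ∧ f = fun t => ∑ j, φ j t • x j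

/-- `D_I f`, the inverse Fourier transform of `1_I` times the Fourier transform of `f`. -/
noncomputable def DR (I : Set ℝ) (f : ℝ → X) : ℝ → X := 𝓕⁻ (I.indicator (𝓕 f))

end

/-- Upper `ℓ^q(L^p)`-decompositions on the circle. -/
def UpperT (X : Type u) [NormedAddCommGroup X] [NormedSpace ℂ X] (p q : ℝ≥0∞) : Prop :=
  ∃ U : ℝ, 0 < U ∧ ∀ J : ℕ → Set ℤ, IsIntPart J → ∀ c : ℤ →₀ X,
    nT p (trig c) ≤ ENNReal.ofReal U * lq q (fun i => nT p (DT (J i) c))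

/-- Lower `ℓ^q(L^p)`-decompositions on the circle. -/
def LowerT (X : Type u) [NormedAddCommGroup X] [NormedSpace ℂ X] (p q : ℝ≥0∞) : Prop :=
  ∃ L : ℝ, 0 < L ∧ ∀ J : ℕ → Set ℤ, IsIntPart J → ∀ c : ℤ →₀ X,
    lq q (fun i => nT p (DT (J i) c)) ≤ ENNReal.ofReal L * nT p (trig c)

/-- Upper `ℓ^q(L^p)`-decompositions on the line. -/
def UpperR (X : Type u) [NormedAddCommGroup X] [NormedSpace ℂ X] (p q : ℝ≥0∞) : Prop :=
  ∃ U : ℝ, 0 < U ∧ ∀ J : ℕ → Set ℝ, IsIntPart J → ∀ f : ℝ → X, IsSc f →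
    nR p f ≤ ENNReal.ofReal U * lq q (fun i => nR p (DR (J i) f))

/-- Lower `ℓ^q(L^p)`-decompositions on the line. -/
def LowerR (X : Type u) [NormedAddCommGroup X] [NormedSpace ℂ X] (p q : ℝ≥0∞) : Prop :=
  ∃ L : ℝ, 0 < L ∧ ∀ J : ℕ → Set ℝ, IsIntPart J → ∀ f : ℝ → X, IsSc f →
    lq q (fun i => nR p (DR (J i) f)) ≤ ENNReal.ofReal L * nR p f

/-! ### Auxiliary objects -/

section
variable {X : Type u} [NormedAddCommGroup X] [NormedSpace ℂ X]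

/-- `g` is bounded by `L`, Lipschitz with constant `L` and vanishes outside `(-A, A)`. -/
def Nice (g : ℝ → X) (A L : ℝ) : Prop :=
  0 < A ∧ 0 < L ∧ (∀ ξ, ‖g ξ‖ ≤ L) ∧ (∀ ξ η, ‖g ξ - g η‖ ≤ L * |ξ - η|) ∧ ∀ ξ, A ≤ |ξ| → g ξ = 0

/-- The inverse Fourier transform of `1_I g`. -/
noncomputable def Ext (g : ℝ → X) (I : Set ℝ) (s : ℝ) : X := ∫ ξ in I, ch ξ s • g ξ

/-- The coefficients `g(n/N)/N`. -/
noncomputable def smp (g : ℝ → X) (A : ℝ) (N : ℕ) : ℤ →₀ X :=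
  ∑ n ∈ Finset.Icc (-⌈A * N⌉) ⌈A * N⌉, Finsupp.single n ((1 / (N : ℂ)) • g ((n : ℝ) / N))

open Classical in
/-- The trigonometric polynomial with coefficients `g(n/N)/N` for `n/N ∈ I`. -/
noncomputable def TN (g : ℝ → X) (A : ℝ) (N : ℕ) (I : Set ℝ) (t : ℝ) : X :=
  ∑ n ∈ Finset.Icc (-⌈A * N⌉) ⌈A * N⌉,
    if (n : ℝ) / N ∈ I then (1 / (N : ℂ)) • (ch (n : ℝ) t • g ((n : ℝ) / N)) else 0

end

/-- The integers `n` with `n / N ∈ I`. -/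
def pre (N : ℕ) (I : Set ℝ) : Set ℤ := {n : ℤ | (n : ℝ) / N ∈ I}

/-- A functional on intervals with the triangle inequality. -/
def Tri (ν : Set ℝ → ℝ≥0∞) : Prop := ν ∅ = 0 ∧ ∀ K M : Set ℝ, K.OrdConnected → M.OrdConnected →
  (K ∪ M).OrdConnected → Disjoint K M → ν (K ∪ M) ≤ ν K + ν M ∧ ν K ≤ ν (K ∪ M) + ν M

/-! ### Statements of the pieces -/

/-- (LQ) properties of `lq` -/
def S_LQ : Prop := ∀ q : ℝ≥0∞, 1 ≤ q →
  (∀ a b : ℕ → ℝ≥0∞, (∀ i, a i ≤ b i) → lq q a ≤ lq q b) ∧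
  (∀ a b : ℕ → ℝ≥0∞, lq q (fun i => a i + b i) ≤ lq q a + lq q b) ∧
  (∀ (C : ℝ≥0∞) (a : ℕ → ℝ≥0∞), lq q (fun i => C * a i) = C * lq q a) ∧
  (∀ (S : Finset ℕ) (a : ℕ → ℝ≥0∞) (δ : ℝ≥0∞), (∀ i, i ∉ S → a i = 0) → (∀ i, a i ≤ δ) →
    lq q a ≤ S.card * δ) ∧
  (∀ (a : ℕ → ℕ → ℝ≥0∞) (b : ℕ → ℝ≥0∞) (M : ℝ≥0∞), (∀ R R' i, R ≤ R' → a R i ≤ a R' i) →
    (∀ i, b i = ⨆ R, a R i) →
    (∀ (S : Finset ℕ) (R : ℕ), lq q (fun i => if i ∈ S then a R i else 0) ≤ M) → lq q b ≤ M)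

/-- (ENL) norms over bounded intervals exhaust the norm -/
def S_ENL : Prop := ∀ (X : Type u) [NormedAddCommGroup X] [NormedSpace ℂ X] (f : ℝ → X) (p : ℝ≥0∞),
  Continuous f →
    (∀ R R' : ℕ, R ≤ R' → eLpNorm f p (volume.restrict (Icc (-(R : ℝ)) R)) ≤
      eLpNorm f p (volume.restrict (Icc (-(R' : ℝ)) R'))) ∧
    eLpNorm f p volume = ⨆ R : ℕ, eLpNorm f p (volume.restrict (Icc (-(R : ℝ)) R))

/-- (RIE) Riemann sums -/
def S_RIE : Prop := ∀ (X : Type u) [NormedAddCommGroup X] [NormedSpace ℂ X] [CompleteSpace X] (g : ℝ → X)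
  (A L : ℝ), Nice g A L → ∃ C : ℝ, 0 < C ∧ ∀ N : ℕ, 1 ≤ N → ∀ I : Set ℝ, I.OrdConnected → ∀ t : ℝ, |t| ≤ 1 / 2 →
    ‖((Real.sinc (Real.pi * t) : ℝ) : ℂ) • TN g A N I t - Ext g I (N * t)‖ ≤ C / N

/-- (DEC) decay and size of `Ext g I` -/
def S_DEC : Prop := ∀ (X : Type u) [NormedAddCommGroup X] [NormedSpace ℂ X] [CompleteSpace X] (g : ℝ → X)
  (A L : ℝ), Nice g A L → ∃ C : ℝ, 0 < C ∧
    (∀ I : Set ℝ, I.OrdConnected → Continuous (Ext g I) ∧ (∀ s, ‖Ext g I s‖ ≤ C) ∧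
      ∀ s, s ≠ 0 → ‖Ext g I s‖ ≤ C / |s|) ∧
    (∀ (a κ : ℝ) (I : Set ℝ), 0 ≤ κ → I.OrdConnected → I ⊆ Icc a (a + κ) → ∀ s, ‖Ext g I s‖ ≤ C * κ)

/-- (SML) short intervals contribute little -/
def S_SML : Prop := ∀ (X : Type u) [NormedAddCommGroup X] [NormedSpace ℂ X] [CompleteSpace X] (g : ℝ → X)
  (A L : ℝ) (p : ℝ≥0∞), Nice g A L → 1 < p → ∀ ε : ℝ, 0 < ε → ∃ κ : ℝ, 0 < κ ∧ ∀ (a : ℝ) (I : Set ℝ),
    I.OrdConnected → I ⊆ Icc a (a + κ) → nR p (Ext g I) ≤ ENNReal.ofReal ε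

/-- (UPL) upper estimate of the norm of the Riemann sums -/
def S_UPL : Prop := ∀ (X : Type u) [NormedAddCommGroup X] [NormedSpace ℂ X] [CompleteSpace X] (g : ℝ → X)
  (A L : ℝ) (p : ℝ≥0∞), Nice g A L → 1 < p → ∃ c : ℕ → ℝ, Tendsto c atTop (𝓝 0) ∧
    ∀ N : ℕ, 1 ≤ N → ∀ I : Set ℝ, I.OrdConnected →
      ENNReal.ofReal ((N : ℝ) ^ (1 / p.toReal)) * nT p (TN g A N I) ≤
        ENNReal.ofReal (Real.pi / 2) * (nR p (Ext g I) + ENNReal.ofReal (c N))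

/-- (DWN) lower estimate of the norm of the Riemann sums -/
def S_DWN : Prop := ∀ (X : Type u) [NormedAddCommGroup X] [NormedSpace ℂ X] [CompleteSpace X] (g : ℝ → X)
  (A L : ℝ) (p : ℝ≥0∞) (R : ℕ), Nice g A L → 1 ≤ p → ∃ c : ℕ → ℝ, Tendsto c atTop (𝓝 0) ∧
    ∀ N : ℕ, 1 ≤ N → 2 * R ≤ N → ∀ I : Set ℝ, I.OrdConnected →
      eLpNorm (Ext g I) p (volume.restrict (Icc (-(R : ℝ)) R)) ≤
        ENNReal.ofReal ((N : ℝ) ^ (1 / p.toReal)) * nT p (TN g A N I) + ENNReal.ofReal (c N)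

/-- (TNC) the Riemann sums are trigonometric polynomials -/
def S_TNC : Prop := ∀ (X : Type u) [NormedAddCommGroup X] [NormedSpace ℂ X] (g : ℝ → X) (A : ℝ) (N : ℕ),
  1 ≤ N → trig (smp g A N) = TN g A N univ ∧ (∀ I : Set ℝ, DT (pre N I) (smp g A N) = TN g A N I) ∧
    ∀ J : ℕ → Set ℝ, IsIntPart J → IsIntPart (fun i => pre N (J i))

/-- (BRI) the functions of the class `S_c` and their Fourier transforms -/
def S_BRI : Prop := ∀ (X : Type u) [NormedAddCommGroup X] [NormedSpace ℂ X] [CompleteSpace X] (f : ℝ → X),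
  IsSc f → ∃ A L : ℝ, Nice (𝓕 f) A L ∧ f = Ext (𝓕 f) univ ∧
    ∀ I : Set ℝ, I.OrdConnected → DR I f = Ext (𝓕 f) I

/-- (POI) periodization does not increase the norm of `L^1` -/
def S_POI : Prop := ∀ (X : Type u) [NormedAddCommGroup X] [NormedSpace ℂ X] [CompleteSpace X] (f : ℝ → X)
  (A L : ℝ), IsSc f → Nice (𝓕 f) A L → ∀ N : ℕ, 1 ≤ N →
    ENNReal.ofReal (N : ℝ) * nT 1 (TN (𝓕 f) A N univ) ≤ nR 1 f

/-- (ABS) an interval can be absorbed by one member of a partition -/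
def S_ABS : Prop := ∀ (ν : Set ℝ → ℝ≥0∞) (q : ℝ≥0∞) (J : ℕ → Set ℝ) (B : Set ℝ) (e : ℝ) (δ : ℝ≥0∞), Tri ν →
  1 ≤ q → IsIntPart J → B.OrdConnected → e ∈ B → (∀ K : Set ℝ, K.OrdConnected → K ⊆ B → ν K ≤ δ) →
    ∃ (J' : ℕ → Set ℝ) (i₀ : ℕ), IsIntPart J' ∧ J' i₀ = J i₀ ∪ B ∧ (∀ i, i ≠ i₀ → J' i = J i \ B) ∧
      lq q (fun i => ν (J' i)) ≤ lq q (fun i => ν (J i)) + 4 * δ

/-- (COV) reduction to finitely many intervals -/
def S_COV : Prop := ∀ (ν : Set ℝ → ℝ≥0∞) (q : ℝ≥0∞) (J : ℕ → Set ℝ) (A ε : ℝ), Tri ν → 1 ≤ q → IsIntPart J →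
  (∀ ε' : ℝ, 0 < ε' → ∃ κ : ℝ, 0 < κ ∧ ∀ (a : ℝ) (K : Set ℝ), K.OrdConnected → K ⊆ Icc a (a + κ) →
    ν K ≤ ENNReal.ofReal ε') → 0 < ε →
    ∃ J' : ℕ → Set ℝ, IsIntPart J' ∧ {i | (J' i ∩ Icc (-A) A).Nonempty}.Finite ∧
      lq q (fun i => ν (J' i)) ≤ lq q (fun i => ν (J i)) + ENNReal.ofReal ε

/-- (FIN) the upper inequality for finitely many intervals -/
def S_FIN : Prop := ∀ (X : Type u) [NormedAddCommGroup X] [NormedSpace ℂ X] [CompleteSpace X] (g : ℝ → X)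
  (A L U : ℝ) (p q : ℝ≥0∞) (J : ℕ → Set ℝ), Nice g A L → 1 < p → 1 ≤ q → 0 < U →
  (∀ J : ℕ → Set ℤ, IsIntPart J → ∀ c : ℤ →₀ X,
    nT p (trig c) ≤ ENNReal.ofReal U * lq q (fun i => nT p (DT (J i) c))) →
  IsIntPart J → {i | (J i ∩ Icc (-A) A).Nonempty}.Finite →
    nR p (Ext g univ) ≤ ENNReal.ofReal (U * (Real.pi / 2)) * lq q (fun i => nR p (Ext g (J i)))

/-- (UPP) from the circle to the line, upper estimates, `p > 1` -/
def S_UPP : Prop := ∀ (X : Type u) [NormedAddCommGroup X] [NormedSpace ℂ X] [CompleteSpace X] (p q : ℝ≥0∞),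
  1 < p → 1 ≤ q → UpperT X p q → UpperR X p q

/-- (LOW) from the circle to the line, lower estimates -/
def S_LOW : Prop := ∀ (X : Type u) [NormedAddCommGroup X] [NormedSpace ℂ X] [CompleteSpace X] (p q : ℝ≥0∞),
  1 ≤ p → 1 ≤ q → LowerT X p q → LowerR X p q

/-- (TRV) no upper estimates with `p = 1 < q` -/
def S_TRV : Prop := ∀ (X : Type u) [NormedAddCommGroup X] [NormedSpace ℂ X] (q : ℝ≥0∞), 1 < q →
  UpperT X 1 q → ∀ x : X, x = 0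

/-- (ONE) upper estimates with `p = q = 1` on the line -/
def S_ONE : Prop := ∀ (X : Type u) [NormedAddCommGroup X] [NormedSpace ℂ X] [CompleteSpace X], UpperR X 1 1

/-- (KER) a kernel with its modulations -/
def S_KER : Prop := ∃ φ : ℤ → SchwartzMap ℝ ℂ, (∀ n t, φ n t = ch (n : ℝ) t * φ 0 t) ∧
  (∀ (n : ℤ) (ξ : ℝ), 1 / 4 ≤ |ξ - n| → 𝓕 (fun t => φ n t) ξ = 0) ∧
  (∀ t ∈ Icc (0 : ℝ) 1, 1 / 2 ≤ ‖φ 0 t‖) ∧ ∃ C : ℝ, 0 < C ∧ ∀ t, ‖φ 0 t‖ ≤ C / (1 + t ^ 2)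

/-- (NRM) multiplication by the kernel compares the norms on the circle and on the line -/
def S_NRM : Prop := ∀ (X : Type u) [NormedAddCommGroup X] [NormedSpace ℂ X] (φ : SchwartzMap ℝ ℂ) (C : ℝ),
  (∀ t ∈ Icc (0 : ℝ) 1, 1 / 2 ≤ ‖φ t‖) → (∀ t, ‖φ t‖ ≤ C / (1 + t ^ 2)) → ∃ C' : ℝ, 0 < C' ∧
    ∀ (p : ℝ≥0∞) (c : ℤ →₀ X), 1 ≤ p → nT p (trig c) ≤ 2 * nR p (fun t => φ t • trig c t) ∧
      nR p (fun t => φ t • trig c t) ≤ ENNReal.ofReal C' * nT p (trig c)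

/-- (DRT) `D_I` on the line applied to a trigonometric polynomial times the kernel -/
def S_DRT : Prop := ∀ (X : Type u) [NormedAddCommGroup X] [NormedSpace ℂ X] [CompleteSpace X]
  (φ : ℤ → SchwartzMap ℝ ℂ), (∀ n t, φ n t = ch (n : ℝ) t * φ 0 t) →
  (∀ (n : ℤ) (ξ : ℝ), 1 / 4 ≤ |ξ - n| → 𝓕 (fun t => φ n t) ξ = 0) → ∀ J : ℕ → Set ℤ, IsIntPart J →
    ∃ J' : ℕ → Set ℝ, IsIntPart J' ∧ ∀ c : ℤ →₀ X, IsSc (fun t => φ 0 t • trig c t) ∧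
      ∀ i, DR (J' i) (fun t => φ 0 t • trig c t) = fun t => φ 0 t • DT (J i) c t

/-- (RTT) from the line to the circle -/
def S_RTT : Prop := ∀ (X : Type u) [NormedAddCommGroup X] [NormedSpace ℂ X] [CompleteSpace X] (p q : ℝ≥0∞),
  1 ≤ p → 1 ≤ q → (UpperR X p q → UpperT X p q) ∧ (LowerR X p q → LowerT X p q)

/-- (ALL) the main theorem -/
def S_ALL : Prop := ∀ (X : Type u) [NormedAddCommGroup X] [NormedSpace ℂ X] [CompleteSpace X] (p q : ℝ≥0∞),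
  1 ≤ p → 1 ≤ q → (UpperT X p q ↔ UpperR X p q) ∧ (LowerT X p q ↔ LowerR X p q)

end Pool.Agent.R955.FD
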