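import Pool.Agent.R955.FD.Defs

set_option autoImplicit false

namespace Pool.Agent.R955.FD

open MeasureTheory Set Filter Topology
open scoped ENNReal FourierTransform

universe u

theorem t_ALL (hUPP : S_UPP.{u}) (hLOW : S_LOW.{u}) (hTRV : S_TRV.{u}) (hONE : S_ONE.{u})
    (hRTT : S_RTT.{u}) : S_ALL.{u} := by
  intro X _ _ _ p q hp hq
  refine ⟨⟨fun h => ?_, (hRTT X p q hp hq).1⟩, ⟨hLOW X p q hp hq, (hRTT X p q hp hq).2⟩⟩
  rcases lt_or_eq_of_le hp with hp1 | hp1
  · exact hUPP X p q hp1 hq h
  · subst hp1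
    rcases lt_or_eq_of_le hq with hq1 | hq1
    · have hX : ∀ x : X, x = 0 := hTRV X q hq1 h
      refine ⟨1, one_pos, fun J _ f _ => ?_⟩
      have hf : f = 0 := by
        funext t
        exact hX _
      have h0 : nR 1 f = 0 := by
        rw [hf]
        exact eLpNorm_zero
      rw [h0]
      exact bot_le
    · subst hq1
      exact hONE X

end Pool.Agent.R955.FD
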