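import Pool.Agent.R955.FD.Defs

/-! FD-RIE: Riemann sums with the sinc factor. -/

set_option autoImplicit false

namespace Pool.Agent.R955.FD.RIE

open MeasureTheory Set Filter Topology
open scoped ENNReal FourierTransform

universe u

lemma ch_norm (ξ t : ℝ) : ‖ch ξ t‖ = 1 := by
  unfold ch
  exact Complex.norm_exp_ofReal_mul_I _

lemma ch_cont (s : ℝ) : Continuous (fun ξ : ℝ => ch ξ s) := by
  unfold ch
  fun_prop

lemma cell_int (N : ℕ) (hN : 1 ≤ N) (n : ℤ) (t : ℝ) :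
    ∫ ξ in ((n : ℝ) - 1 / 2) / N..((n : ℝ) + 1 / 2) / N, ch ξ (N * t) =
      ((Real.sinc (Real.pi * t) : ℝ) : ℂ) * ((1 / (N : ℂ)) * ch (n : ℝ) t) := by
  have hN1 : (N : ℝ) ≠ 0 := by positivity
  have hN2 : (N : ℂ) ≠ 0 := by exact_mod_cast hN1
  by_cases ht : t = 0
  · subst ht
    have h1 : ∀ ξ : ℝ, ch ξ ((N : ℝ) * 0) = 1 := by
      intro ξ
      simp [ch]
    have h2 : ch (n : ℝ) 0 = 1 := by simp [ch]
    simp_rw [h1, h2]
    rw [mul_zero, Real.sinc_zero, intervalIntegral.integral_const]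
    have h3 : ((n : ℝ) + 1 / 2) / N - ((n : ℝ) - 1 / 2) / N = 1 / N := by ring
    rw [h3, Complex.real_smul]
    push_cast
    ring
  · have hpi : (Real.pi : ℂ) ≠ 0 := by exact_mod_cast Real.pi_ne_zero
    have htc : (t : ℂ) ≠ 0 := by exact_mod_cast ht
    have hc : (2 * (Real.pi : ℂ) * N * t) * Complex.I ≠ 0 := by
      refine mul_ne_zero (mul_ne_zero (mul_ne_zero (mul_ne_zero two_ne_zero hpi) hN2) htc)
        Complex.I_ne_zero
    have h1 : ∀ ξ : ℝ, ch ξ ((N : ℝ) * t) =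
        Complex.exp ((2 * (Real.pi : ℂ) * N * t) * Complex.I * ξ) := by
      intro ξ
      unfold ch
      congr 1
      push_cast
      ring
    simp_rw [h1]
    rw [integral_exp_mul_complex hc]
    have h2 : Complex.exp ((2 * (Real.pi : ℂ) * N * t) * Complex.I *
        ((((n : ℝ) + 1 / 2) / N : ℝ) : ℂ)) =
        ch (n : ℝ) t * Complex.exp (((Real.pi * t : ℝ) : ℂ) * Complex.I) := by
      unfold ch
      rw [← Complex.exp_add]
      congr 1
      push_cast
      field_simp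
    have h3 : Complex.exp ((2 * (Real.pi : ℂ) * N * t) * Complex.I *
        ((((n : ℝ) - 1 / 2) / N : ℝ) : ℂ)) =
        ch (n : ℝ) t * Complex.exp (((-(Real.pi * t) : ℝ) : ℂ) * Complex.I) := by
      unfold ch
      rw [← Complex.exp_add]
      congr 1
      push_cast
      field_simp
      ring
    have h4 : Complex.exp (((Real.pi * t : ℝ) : ℂ) * Complex.I) -
        Complex.exp (((-(Real.pi * t) : ℝ) : ℂ) * Complex.I) =
        2 * Complex.I * ((Real.sin (Real.pi * t) : ℝ) : ℂ) := by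
      rw [Complex.exp_mul_I, Complex.exp_mul_I, Complex.ofReal_neg, Complex.cos_neg,
        Complex.sin_neg, Complex.ofReal_sin]
      ring
    have h5 : Real.pi * t ≠ 0 := mul_ne_zero Real.pi_ne_zero ht
    rw [h2, h3, ← mul_sub, h4, Real.sinc_of_ne_zero h5]
    have hI := Complex.I_ne_zero
    push_cast
    field_simp

variable {X : Type u} [NormedAddCommGroup X] [NormedSpace ℂ X]

omit [NormedSpace ℂ X] in
lemma sum_Icc (M : ℕ) (f : ℤ → X) : ∑ n ∈ Finset.Icc (-(M : ℤ)) M, f n =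
    ∑ k ∈ Finset.range (2 * M + 1), f ((k : ℤ) - M) := by
  refine Finset.sum_nbij' (fun n => (n + M).toNat) (fun k => (k : ℤ) - M) ?_ ?_ ?_ ?_ ?_
  · intro n hn
    rw [Finset.mem_Icc] at hn
    rw [Finset.mem_range]
    omega
  · intro k hk
    rw [Finset.mem_range] at hk
    rw [Finset.mem_Icc]
    omega
  · intro n hn
    rw [Finset.mem_Icc] at hn
    omega
  · intro k hk
    omega
  · intro n hn
    rw [Finset.mem_Icc] at hn
    congr 1
    omega

/-- exceptional cells -/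
def Exc (N : ℕ) (I : Set ℝ) (n : ℤ) : Prop :=
  (∃ ξ ∈ Ioc (((n : ℝ) - 1 / 2) / N) (((n : ℝ) + 1 / 2) / N), ξ ∈ I) ∧
  (∃ ξ ∈ Ioc (((n : ℝ) - 1 / 2) / N) (((n : ℝ) + 1 / 2) / N), ξ ∉ I)

lemma cell_lt {N : ℕ} (hN : 1 ≤ N) {n m : ℤ} (h : n < m) {x y : ℝ}
    (hx : x ∈ Ioc (((n : ℝ) - 1 / 2) / N) (((n : ℝ) + 1 / 2) / N))
    (hy : y ∈ Ioc (((m : ℝ) - 1 / 2) / N) (((m : ℝ) + 1 / 2) / N)) : x < y := by
  have hN1 : (0 : ℝ) < N := by positivity
  have h1 : ((n : ℝ) + 1 / 2) / N ≤ ((m : ℝ) - 1 / 2) / N := by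
    have h2 : (n : ℝ) + 1 ≤ m := by exact_mod_cast h
    gcongr
    linarith
  linarith [hx.2, hy.1]

open Classical in
lemma card_exc {N : ℕ} (hN : 1 ≤ N) {I : Set ℝ} (hI : I.OrdConnected) (S : Finset ℤ) :
    (S.filter (Exc N I)).card ≤ 2 := by
  rcases (S.filter (Exc N I)).eq_empty_or_nonempty with h | h
  · rw [h]
    simp
  · have h1 : S.filter (Exc N I) ⊆
        {(S.filter (Exc N I)).min' h, (S.filter (Exc N I)).max' h} := by
      intro n hn
      rw [Finset.mem_insert, Finset.mem_singleton]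
      by_contra hcon
      push Not at hcon
      have h2 := lt_of_le_of_ne (Finset.min'_le _ _ hn) (Ne.symm hcon.1)
      have h3 := lt_of_le_of_ne (Finset.le_max' _ _ hn) hcon.2
      have h4 := (Finset.mem_filter.1 ((S.filter (Exc N I)).min'_mem h)).2
      have h5 := (Finset.mem_filter.1 ((S.filter (Exc N I)).max'_mem h)).2
      have h6 := (Finset.mem_filter.1 hn).2
      obtain ⟨x, hx, hxI⟩ := h4.1
      obtain ⟨y, hy, hyI⟩ := h5.1
      obtain ⟨z, hz, hzI⟩ := h6.2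
      exact hzI (hI.out hxI hyI ⟨(cell_lt hN h2 hx hz).le, (cell_lt hN h3 hz hy).le⟩)
    exact (Finset.card_le_card h1).trans Finset.card_le_two

open Classical in
/-- the value on the cell -/
noncomputable def vn (g : ℝ → X) (N : ℕ) (I : Set ℝ) (n : ℤ) : X :=
  if (n : ℝ) / N ∈ I then g ((n : ℝ) / N) else 0

omit [NormedSpace ℂ X] in
lemma vn_bound {g : ℝ → X} {A L : ℝ} (hg : Nice g A L) {N : ℕ} (I : Set ℝ) (n : ℤ) :
    ‖vn g N I n‖ ≤ L := by
  unfold vn
  split_ifs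
  · exact hg.2.2.1 _
  · rw [norm_zero]
    exact hg.2.1.le

omit [NormedSpace ℂ X] in
lemma ind_bound {g : ℝ → X} {A L : ℝ} (hg : Nice g A L) (I : Set ℝ) (ξ : ℝ) :
    ‖I.indicator g ξ‖ ≤ L := by
  by_cases h : ξ ∈ I
  · rw [indicator_of_mem h]
    exact hg.2.2.1 _
  · rw [indicator_of_notMem h, norm_zero]
    exact hg.2.1.le

omit [NormedSpace ℂ X] in
lemma diff_good {g : ℝ → X} {A L : ℝ} (hg : Nice g A L) {N : ℕ} (hN : 1 ≤ N) {I : Set ℝ}
    {n : ℤ} (hn : ¬ Exc N I n) {ξ : ℝ}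
    (hξ : ξ ∈ Ioc (((n : ℝ) - 1 / 2) / N) (((n : ℝ) + 1 / 2) / N)) :
    ‖vn g N I n - I.indicator g ξ‖ ≤ L / (2 * N) := by
  have hN1 : (0 : ℝ) < N := by positivity
  have hL := hg.2.1
  have hmid : (n : ℝ) / N ∈ Ioc (((n : ℝ) - 1 / 2) / N) (((n : ℝ) + 1 / 2) / N) := by
    constructor
    · gcongr
      linarith
    · gcongr
      linarith
  by_cases h : ξ ∈ I
  · have h2 : (n : ℝ) / N ∈ I := by
      by_contra h3
      exact hn ⟨⟨ξ, hξ, h⟩, ⟨_, hmid, h3⟩⟩
    unfold vn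
    rw [if_pos h2, indicator_of_mem h]
    refine (hg.2.2.2.1 _ _).trans ?_
    have h4 : |(n : ℝ) / N - ξ| ≤ 1 / (2 * N) := by
      have e1 : ((n : ℝ) - 1 / 2) / N = (n : ℝ) / N - 1 / (2 * N) := by
        field_simp
      have e2 : ((n : ℝ) + 1 / 2) / N = (n : ℝ) / N + 1 / (2 * N) := by
        field_simp
      rw [e1, e2] at hξ
      rw [abs_le]
      constructor
      · linarith [hξ.2]
      · linarith [hξ.1]
    calc L * |(n : ℝ) / N - ξ| ≤ L * (1 / (2 * N)) := by gcongr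
      _ = L / (2 * N) := by ring
  · have h2 : (n : ℝ) / N ∉ I := by
      intro h3
      exact hn ⟨⟨_, hmid, h3⟩, ⟨ξ, hξ, h⟩⟩
    unfold vn
    rw [if_neg h2, indicator_of_notMem h, sub_zero, norm_zero]
    positivity

/-- piece FD-RIE -/
theorem t_RIE : S_RIE.{u} := by
  intro X _ _ _ g A L hg
  classical
  have hA := hg.1
  have hL := hg.2.1
  refine ⟨(2 * A + 3) * L / 2 + 4 * L, by positivity, fun N hN I hI t _ => ?_⟩
  have hN1 : (0 : ℝ) < N := by positivity
  have hN2 : (1 : ℝ) ≤ N := by exact_mod_cast hN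
  have hN3 : (N : ℂ) ≠ 0 := by exact_mod_cast hN1.ne'
  obtain ⟨M, hM⟩ : ∃ M : ℕ, (M : ℤ) = ⌈A * N⌉ :=
    ⟨⌈A * N⌉.toNat, Int.toNat_of_nonneg (Int.ceil_nonneg (by positivity))⟩
  have hM1 : A * N ≤ M := by
    have := Int.le_ceil (A * N)
    rw [← hM] at this
    exact_mod_cast this
  have hM2 : (M : ℝ) < A * N + 1 := by
    have := Int.ceil_lt_add_one (A * N)
    rw [← hM] at this
    exact_mod_cast this
  have hgc : Continuous g := by
    refine (LipschitzWith.of_dist_le_mul (K := ⟨L, hL.le⟩) fun x y => ?_).continuous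
    rw [dist_eq_norm, Real.dist_eq]
    exact hg.2.2.2.1 x y
  set G : ℝ → X := I.indicator (fun ξ => ch ξ (N * t) • g ξ) with hG
  have hGeq : ∀ ξ, G ξ = ch ξ (N * t) • I.indicator g ξ := by
    intro ξ
    by_cases h : ξ ∈ I
    · rw [hG, indicator_of_mem h, indicator_of_mem h]
    · rw [hG, indicator_of_notMem h, indicator_of_notMem h, smul_zero]
  have hGi : ∀ a b : ℝ, IntervalIntegrable G volume a b := by
    intro a b
    have h1 : Continuous fun ξ : ℝ => ch ξ (N * t) • g ξ := (ch_cont _).smul hgc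
    have h2 := h1.intervalIntegrable (μ := volume) a b
    rw [intervalIntegrable_iff] at h2 ⊢
    exact h2.indicator hI.measurableSet
  have hExt : Ext g I (N * t) = ∑ n ∈ Finset.Icc (-(M : ℤ)) M,
      ∫ ξ in ((n : ℝ) - 1 / 2) / N..((n : ℝ) + 1 / 2) / N, G ξ := by
    unfold Ext
    rw [← integral_indicator hI.measurableSet]
    rw [sum_Icc M (fun n : ℤ => ∫ ξ in ((n : ℝ) - 1 / 2) / N..((n : ℝ) + 1 / 2) / N, G ξ)]
    have h1 := intervalIntegral.sum_integral_adjacent_intervals (f := G) (μ := volume)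
      (a := fun k : ℕ => ((k : ℝ) - M - 1 / 2) / N) (n := 2 * M + 1)
      (fun k _ => hGi _ _)
    have h2 : ∀ k : ℕ, ∫ ξ in ((((k : ℤ) - M : ℤ) : ℝ) - 1 / 2) / N..
        ((((k : ℤ) - M : ℤ) : ℝ) + 1 / 2) / N, G ξ =
        ∫ ξ in ((k : ℝ) - M - 1 / 2) / N..(((k + 1 : ℕ) : ℝ) - M - 1 / 2) / N, G ξ := by
      intro k
      congr 1
      · push_cast
        ring
      · push_cast
        ring
    rw [Finset.sum_congr rfl fun k _ => h2 k, h1]
    symm
    refine intervalIntegral.integral_eq_integral_of_support_subset ?_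
    intro ξ hξ
    rw [Function.mem_support] at hξ
    have h3 : |ξ| < A := by
      by_contra h4
      push Not at h4
      apply hξ
      rw [hGeq]
      have h5 : I.indicator g ξ = 0 := by
        by_cases h : ξ ∈ I
        · rw [indicator_of_mem h]
          exact hg.2.2.2.2 ξ h4
        · rw [indicator_of_notMem h]
      rw [h5, smul_zero]
    rw [abs_lt] at h3
    constructor
    · rw [div_lt_iff₀ hN1]
      push_cast
      nlinarith [mul_lt_mul_of_pos_right h3.1 hN1]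
    · rw [le_div_iff₀ hN1]
      push_cast
      nlinarith [mul_lt_mul_of_pos_right h3.2 hN1]
  have hTN : ((Real.sinc (Real.pi * t) : ℝ) : ℂ) • TN g A N I t =
      ∑ n ∈ Finset.Icc (-(M : ℤ)) M,
        ∫ ξ in ((n : ℝ) - 1 / 2) / N..((n : ℝ) + 1 / 2) / N, ch ξ (N * t) • vn g N I n := by
    unfold TN
    rw [← hM, Finset.smul_sum]
    refine Finset.sum_congr rfl fun n _ => ?_
    rw [intervalIntegral.integral_smul_const, cell_int N hN n t]
    unfold vn
    split_ifs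
    · rw [smul_smul, smul_smul, mul_assoc]
    · rw [smul_zero, smul_zero]
  rw [hExt, hTN, ← Finset.sum_sub_distrib]
  have hD : ∀ n : ℤ, ‖(∫ ξ in ((n : ℝ) - 1 / 2) / N..((n : ℝ) + 1 / 2) / N,
      ch ξ (N * t) • vn g N I n) -
      ∫ ξ in ((n : ℝ) - 1 / 2) / N..((n : ℝ) + 1 / 2) / N, G ξ‖ ≤
      L / (2 * N) * (1 / N) + (if Exc N I n then 2 * L * (1 / N) else 0) := by
    intro n
    have e0 : ((n : ℝ) + 1 / 2) / N - ((n : ℝ) - 1 / 2) / N = 1 / N := by ring
    have e1 : ((n : ℝ) - 1 / 2) / N ≤ ((n : ℝ) + 1 / 2) / N := by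
      gcongr
      linarith
    have hci : Continuous fun ξ : ℝ => ch ξ (N * t) • vn g N I n :=
      (ch_cont (N * t)).smul continuous_const
    rw [← intervalIntegral.integral_sub (hci.intervalIntegrable _ _) (hGi _ _)]
    have e2 : ∀ ξ, ch ξ (N * t) • vn g N I n - G ξ =
        ch ξ (N * t) • (vn g N I n - I.indicator g ξ) := by
      intro ξ
      rw [hGeq, smul_sub]
    simp_rw [e2]
    by_cases h : Exc N I n
    · rw [if_pos h]
      have h1 : ∀ ξ ∈ uIoc (((n : ℝ) - 1 / 2) / N) (((n : ℝ) + 1 / 2) / N),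
          ‖ch ξ (N * t) • (vn g N I n - I.indicator g ξ)‖ ≤ 2 * L := by
        intro ξ _
        rw [norm_smul, ch_norm, one_mul]
        refine (norm_sub_le _ _).trans ?_
        linarith [vn_bound hg (N := N) I n, ind_bound hg I ξ]
      have h2 := intervalIntegral.norm_integral_le_of_norm_le_const h1
      rw [e0, abs_of_pos (by positivity)] at h2
      have : 0 ≤ L / (2 * N) * (1 / N) := by positivity
      linarith
    · rw [if_neg h, add_zero]
      have h1 : ∀ ξ ∈ uIoc (((n : ℝ) - 1 / 2) / N) (((n : ℝ) + 1 / 2) / N),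
          ‖ch ξ (N * t) • (vn g N I n - I.indicator g ξ)‖ ≤ L / (2 * N) := by
        intro ξ hξ
        rw [uIoc_of_le e1] at hξ
        rw [norm_smul, ch_norm, one_mul]
        exact diff_good hg hN h hξ
      have h2 := intervalIntegral.norm_integral_le_of_norm_le_const h1
      rw [e0, abs_of_pos (by positivity)] at h2
      exact h2
  refine (norm_sum_le _ _).trans ((Finset.sum_le_sum fun n _ => hD n).trans ?_)
  rw [Finset.sum_add_distrib, Finset.sum_const, Int.card_Icc, ← Finset.sum_filter,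
    Finset.sum_const, nsmul_eq_mul, nsmul_eq_mul]
  have hc := card_exc hN hI (Finset.Icc (-(M : ℤ)) M)
  have hc2 : (((Finset.Icc (-(M : ℤ)) M).filter (Exc N I)).card : ℝ) ≤ 2 := by exact_mod_cast hc
  have hc3 : (((M : ℤ) + 1 - -(M : ℤ)).toNat : ℝ) = 2 * M + 1 := by
    have : ((M : ℤ) + 1 - -(M : ℤ)).toNat = 2 * M + 1 := by omega
    rw [this]
    push_cast
    ring
  rw [hc3]
  have h1 : (((Finset.Icc (-(M : ℤ)) M).filter (Exc N I)).card : ℝ) * (2 * L * (1 / N)) ≤
      2 * (2 * L * (1 / N)) := by gcongr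
  have h2 : (2 * (M : ℝ) + 1) * (L / (2 * N) * (1 / N)) ≤
      ((2 * A + 3) * N) * (L / (2 * N) * (1 / N)) := by
    gcongr
    nlinarith
  have h3 : ((2 * A + 3) * N) * (L / (2 * N) * (1 / N)) = (2 * A + 3) * L / 2 / N := by
    field_simp
  have h4 : ((2 * A + 3) * L / 2 + 4 * L) / N = (2 * A + 3) * L / 2 / N + 2 * (2 * L * (1 / N)) := by
    ring
  rw [h4, ← h3]
  linarith

end Pool.Agent.R955.FD.RIE
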