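import Pool.Agent.R955.FD.Defs

set_option autoImplicit false

namespace Pool.Agent.R955.FD

open MeasureTheory Set Filter Topology
open scoped ENNReal FourierTransform

universe u

theorem t_RTT (h1 : S_KER) (h2 : S_NRM.{u}) (h3 : S_DRT.{u}) (h4 : S_LQ) : S_RTT.{u} := by
  intro X _ _ _ p q hp hq
  obtain ⟨φ, hmod, hvan, hhalf, C, hC, hdec⟩ := h1
  obtain ⟨C', hC', hN⟩ := h2 X (φ 0) C hhalf hdec
  obtain ⟨hmono, -, hhom, -, -⟩ := h4 q hq
  have hDT : ∀ (I : Set ℤ) (c : ℤ →₀ X), DT I c = trig (by classical exact c.filter fun n => n ∈ I) := by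
    intro I c
    rfl
  have hlow : ∀ (I : Set ℤ) (c : ℤ →₀ X), nT p (DT I c) ≤ 2 * nR p (fun t => φ 0 t • DT I c t) := by
    intro I c
    rw [hDT]
    exact (hN p _ hp).1
  have hup : ∀ (I : Set ℤ) (c : ℤ →₀ X),
      nR p (fun t => φ 0 t • DT I c t) ≤ ENNReal.ofReal C' * nT p (DT I c) := by
    intro I c
    rw [hDT]
    exact (hN p _ hp).2
  constructor
  · rintro ⟨U, hU, h⟩
    refine ⟨2 * U * C', by positivity, fun J hJ c => ?_⟩
    obtain ⟨J', hJ', hd⟩ := h3 X φ hmod hvan J hJ
    obtain ⟨hsc, hD⟩ := hd c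
    calc nT p (trig c) ≤ 2 * nR p (fun t => φ 0 t • trig c t) := (hN p c hp).1
      _ ≤ 2 * (ENNReal.ofReal U * lq q (fun i => nR p (DR (J' i) (fun t => φ 0 t • trig c t)))) := by
          gcongr
          exact h J' hJ' _ hsc
      _ ≤ 2 * (ENNReal.ofReal U * lq q (fun i => ENNReal.ofReal C' * nT p (DT (J i) c))) := by
          gcongr
          apply hmono
          intro i
          rw [hD i]
          exact hup (J i) c
      _ = ENNReal.ofReal (2 * U * C') * lq q (fun i => nT p (DT (J i) c)) := by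
          rw [hhom, ENNReal.ofReal_mul (by positivity), ENNReal.ofReal_mul (by positivity)]
          simp only [ENNReal.ofReal_ofNat]
          ring
  · rintro ⟨L, hL, h⟩
    refine ⟨2 * L * C', by positivity, fun J hJ c => ?_⟩
    obtain ⟨J', hJ', hd⟩ := h3 X φ hmod hvan J hJ
    obtain ⟨hsc, hD⟩ := hd c
    calc lq q (fun i => nT p (DT (J i) c))
        ≤ lq q (fun i => 2 * nR p (DR (J' i) (fun t => φ 0 t • trig c t))) := by
          apply hmono
          intro i
          rw [hD i]
          exact hlow (J i) c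
      _ = 2 * lq q (fun i => nR p (DR (J' i) (fun t => φ 0 t • trig c t))) := hhom 2 _
      _ ≤ 2 * (ENNReal.ofReal L * nR p (fun t => φ 0 t • trig c t)) := by
          gcongr
          exact h J' hJ' _ hsc
      _ ≤ 2 * (ENNReal.ofReal L * (ENNReal.ofReal C' * nT p (trig c))) := by
          gcongr
          exact (hN p c hp).2
      _ = ENNReal.ofReal (2 * L * C') * nT p (trig c) := by
          rw [ENNReal.ofReal_mul (by positivity), ENNReal.ofReal_mul (by positivity)]
          simp only [ENNReal.ofReal_ofNat]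
          ring

end Pool.Agent.R955.FD
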